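import Pool.Agent.L7h4.SF.Stm

/-!
Project SF, part G2 (helper23).  With `L = b (1 + e_0 ⊗ e_1)`, `t = diag (1, -1, 1)`,
`w = e_1`, `φ = 2 e_0`, `T = 1 + w ⊗ φ`: `t1 = L t`, `t2 = t T⁻¹` and `t3 t4 = T`.
-/

set_option autoImplicit false

namespace Pool.Agent.L7h23.SF

open MvPolynomial Pool.Helper89.Rev Pool.Agent.L7h57.RV Matrix Pool.Agent.L7h4.SF
open Pool.Agent.L7h4.F5

/-- the involutions -/
def t1 (b : ℂ) : Mat 3 := !![b, -b, 0; 0, -b, 0; 0, 0, b]

/-- the second one -/
def t2 : Mat 3 := !![1, 0, 0; 2, -1, 0; 0, 0, 1]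

/-- the third one -/
def t3 : Mat 3 := !![1, 0, 0; 0, -1, -2; 0, 0, 1]

/-- the fourth one -/
def t4 : Mat 3 := !![1, 0, 0; -2, -1, -2; 0, 0, 1]

lemma t1_sq (b : ℂ) (hb : b ^ 2 = 1) : t1 b * t1 b = 1 := by
  rw [one_fin_three, t1, mul_fin_three]
  have h : b * b = 1 := by rw [← hb]; ring
  congr 1
  ext i j
  fin_cases i <;> fin_cases j <;> simp [h]

lemma t2_sq : t2 * t2 = 1 := by
  rw [one_fin_three, t2, mul_fin_three]
  norm_num

lemma t3_sq : t3 * t3 = 1 := by
  rw [one_fin_three, t3, mul_fin_three]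
  norm_num

lemma t4_sq : t4 * t4 = 1 := by
  rw [one_fin_three, t4, mul_fin_three]
  norm_num

lemma t34 : t3 * t4 = 1 + vecMulVec ![0, 1, 0] ![2, 0, 0] := by
  rw [one_fin_three, t3, t4, mul_fin_three]
  ext i j
  fin_cases i <;> fin_cases j <;> norm_num [vecMulVec_apply]

lemma prod_all (b : ℂ) :
    t1 b * (t2 * (t3 * t4)) = b • (1 : Mat 3) + vecMulVec ![b, 0, 0] ![0, 1, 0] := by
  rw [one_fin_three, t1, t2, t3, t4, mul_fin_three, mul_fin_three, mul_fin_three]
  ext i j
  fin_cases i <;> fin_cases j <;> norm_num [vecMulVec_apply]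

theorem s_G2 (h1 : S_C3) : S_G2 := by
  intro b hb
  have hb0 : b ≠ 0 := by
    rintro rfl
    norm_num at hb
  refine ⟨![b, 0, 0], ![0, 1, 0], ?_, ?_, ?_, ?_⟩
  · intro h
    exact hb0 (congrFun h 0)
  · intro h
    exact one_ne_zero (congrFun h 1)
  · simp [dotProduct, Fin.sum_univ_three]
  · refine ⟨![t1 b, t2, t3, t4], ?_, ?_, ?_⟩
    · intro i
      fin_cases i
      · exact t1_sq b hb
      · exact t2_sq
      · exact t3_sq
      · exact t4_sq
    · rw [← prod_all]
      simp [List.ofFn_succ]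
    · set G : Submonoid (Mat 3) := Submonoid.closure (Set.range ![t1 b, t2, t3, t4]) with hG
      have m1 : t1 b ∈ G := Submonoid.subset_closure ⟨0, rfl⟩
      have m3 : t3 ∈ G := Submonoid.subset_closure ⟨2, rfl⟩
      have m4 : t4 ∈ G := Submonoid.subset_closure ⟨3, rfl⟩
      refine h1 3 G ![0, 1, 0] ![2, 0, 0] ![1, t1 b, t1 b * t3] ![1, t1 b, t3 * t1 b]
        ?_ ?_ ?_ ?_ ?_ ?_ ?_
      · intro h
        exact one_ne_zero (congrFun h 1)
      · simp [dotProduct, Fin.sum_univ_three]
      · rw [← t34]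
        exact G.mul_mem m3 m4
      · intro k
        fin_cases k
        · exact G.one_mem
        · exact m1
        · exact G.mul_mem m1 m3
      · intro k
        fin_cases k
        · exact G.one_mem
        · exact m1
        · exact G.mul_mem m3 m1
      · intro k
        fin_cases k
        · exact one_mul 1
        · exact t1_sq b hb
        · show t1 b * t3 * (t3 * t1 b) = 1
          rw [mul_assoc, ← mul_assoc t3, t3_sq, one_mul, t1_sq b hb]
      · have he : (Matrix.of fun k : Fin 3 => (![2, 0, 0] : Fin 3 → ℂ) ᵥ*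
            (![1, t1 b, t1 b * t3] : Fin 3 → Mat 3) k) =
            !![2, 0, 0; 2 * b, -2 * b, 0; 2 * b, 2 * b, 4 * b] := by
          ext i j
          rw [Matrix.of_apply]
          fin_cases i
          · fin_cases j <;> simp [vecMul, dotProduct, Fin.sum_univ_three]
          · fin_cases j <;> simp [vecMul, dotProduct, Fin.sum_univ_three, t1]
          · fin_cases j <;>
              simp [vecMul, dotProduct, Fin.sum_univ_three, t1, t3] <;> ring
        rw [he, det_fin_three]
        simp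
        exact hb0

end Pool.Agent.L7h23.SF
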